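import Mathlib

/-!
Definitions for stationary integer rectifiable varifolds in Euclidean space, described by the
weight measure `μ` and the field `S` of approximate tangent planes.
-/

set_option autoImplicit false

open MeasureTheory Filter Topology Set Metric

namespace Pool.Agent.MP_f6c0e6_an

/-- `M` is countably `m`-rectifiable: up to a null set of the `m`-dimensional Hausdorff measure it
is covered by countably many Lipschitz images of `ℝ^m`. -/
def IsRectifiable (m : ℕ) {N : ℕ} (M : Set (EuclideanSpace ℝ (Fin N))) : Prop :=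
  ∃ f : ℕ → EuclideanSpace ℝ (Fin m) → EuclideanSpace ℝ (Fin N),
    (∀ j, ∃ K : NNReal, LipschitzWith K (f j)) ∧
      Measure.euclideanHausdorffMeasure m (M \ ⋃ j, range (f j)) = 0

/-- The blow-ups of `μ` at `x`, normalised by `r ^ m`, converge weakly to `c` times the
`m`-dimensional Hausdorff measure on the `m`-dimensional plane `P`. -/
def HasTangentPlane (m : ℕ) {N : ℕ} (μ : Measure (EuclideanSpace ℝ (Fin N)))
    (x : EuclideanSpace ℝ (Fin N)) (P : Submodule ℝ (EuclideanSpace ℝ (Fin N))) (c : ℝ) : Prop :=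
  Module.finrank ℝ P = m ∧
    ∀ φ : EuclideanSpace ℝ (Fin N) → ℝ, Continuous φ → HasCompactSupport φ →
      Tendsto (fun r : ℝ => (r ^ m)⁻¹ * ∫ y, φ (r⁻¹ • (y - x)) ∂μ) (𝓝[>] 0)
        (𝓝 (c * ∫ y in (P : Set (EuclideanSpace ℝ (Fin N))), φ y
          ∂(Measure.euclideanHausdorffMeasure m)))

/-- `μ` is the weight measure and `S` the field of approximate tangent planes of an integer
rectifiable `m`-dimensional varifold in the open set `U`. -/
def IsIntegralVarifold (m : ℕ) {N : ℕ} (U : Set (EuclideanSpace ℝ (Fin N)))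
    (μ : Measure (EuclideanSpace ℝ (Fin N)))
    (S : EuclideanSpace ℝ (Fin N) → Submodule ℝ (EuclideanSpace ℝ (Fin N))) : Prop :=
  (∀ K, IsCompact K → K ⊆ U → μ K < ⊤) ∧
  (∀ v, Measurable fun x => (S x).starProjection v) ∧
  ∃ (M : Set (EuclideanSpace ℝ (Fin N))) (θ : EuclideanSpace ℝ (Fin N) → ℕ),
    MeasurableSet M ∧ M ⊆ U ∧ IsRectifiable m M ∧ Measurable θ ∧ (∀ x ∈ M, 1 ≤ θ x) ∧
    μ = ((Measure.euclideanHausdorffMeasure m).restrict M).withDensity (fun x => (θ x : ENNReal)) ∧
    ∀ᵐ x ∂μ, HasTangentPlane m μ x (S x) (θ x)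

/-- The tangential divergence of the vector field `X` along the plane `S x`. -/
noncomputable def tanDiv {N : ℕ}
    (S : EuclideanSpace ℝ (Fin N) → Submodule ℝ (EuclideanSpace ℝ (Fin N)))
    (X : EuclideanSpace ℝ (Fin N) → EuclideanSpace ℝ (Fin N)) (x : EuclideanSpace ℝ (Fin N)) : ℝ :=
  LinearMap.trace ℝ (EuclideanSpace ℝ (Fin N))
    ((S x).starProjection.comp (fderiv ℝ X x)).toLinearMap

/-- The first variation vanishes on all `C¹` vector fields with compact support in `U`. -/
def IsStationary {N : ℕ} (U : Set (EuclideanSpace ℝ (Fin N)))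
    (μ : Measure (EuclideanSpace ℝ (Fin N)))
    (S : EuclideanSpace ℝ (Fin N) → Submodule ℝ (EuclideanSpace ℝ (Fin N))) : Prop :=
  ∀ X : EuclideanSpace ℝ (Fin N) → EuclideanSpace ℝ (Fin N),
    ContDiff ℝ 1 X → HasCompactSupport X → tsupport X ⊆ U → ∫ x, tanDiv S X x ∂μ = 0

/-- The `m`-dimensional density of `μ` at `x`. -/
noncomputable def density (m : ℕ) {N : ℕ} (μ : Measure (EuclideanSpace ℝ (Fin N)))
    (x : EuclideanSpace ℝ (Fin N)) : ℝ :=
  limUnder (𝓝[>] (0 : ℝ)) fun r : ℝ =>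
    (μ (ball x r)).toReal /
      ((volume (ball (0 : EuclideanSpace ℝ (Fin m)) 1)).toReal * r ^ m)

/-- Hypothesis (H): a unique flat tangent cone at `x₀`, and the set where the density differs from
the density at `x₀` has mass `o(r ^ m)` in the ball of radius `r` about `x₀`. -/
def HypH (m : ℕ) {N : ℕ} (μ : Measure (EuclideanSpace ℝ (Fin N)))
    (x₀ : EuclideanSpace ℝ (Fin N)) : Prop :=
  (∃ P, HasTangentPlane m μ x₀ P (density m μ x₀)) ∧
    Tendsto (fun r : ℝ => (r ^ m)⁻¹ *
      (μ ({x | density m μ x ≠ density m μ x₀} ∩ ball x₀ r)).toReal) (𝓝[>] 0) (𝓝 0)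

/-- The tangent vector of the graph of `u`, at the point over `x`, that lies over `w`. -/
noncomputable def graphVec {N : ℕ} {σ : Submodule ℝ (EuclideanSpace ℝ (Fin N))} (u : σ → σᗮ)
    (x w : σ) : EuclideanSpace ℝ (Fin N) :=
  (w : EuclideanSpace ℝ (Fin N)) + (fderiv ℝ u x w : EuclideanSpace ℝ (Fin N))

/-- The second derivative of `u` at `x` in the direction `v`. -/
noncomputable def graphHess {N : ℕ} {σ : Submodule ℝ (EuclideanSpace ℝ (Fin N))} (u : σ → σᗮ)
    (x v : σ) : EuclideanSpace ℝ (Fin N) :=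
  (fderiv ℝ (fun y => fderiv ℝ u y v) x v : σᗮ)

/-- The mean curvature of the graph of `u` vanishes at the point over `x`: for every orthonormal
frame of the tangent plane, the trace of the second derivative of `u` over the frame has no
component normal to the graph. -/
def ZeroMeanCurvAt (m : ℕ) {N : ℕ} {σ : Submodule ℝ (EuclideanSpace ℝ (Fin N))} (u : σ → σᗮ)
    (x : σ) : Prop :=
  ∀ v : Fin m → σ, Orthonormal ℝ (fun k => graphVec u x (v k)) →
    ∀ n : EuclideanSpace ℝ (Fin N), (∀ w : σ, inner ℝ n (graphVec u x w) = 0) →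
      inner ℝ n (∑ k, graphHess u x (v k)) = 0

/-- `M` is a smooth classical minimal `m`-dimensional graph near `x₀`: `M` is the part in an open
neighbourhood `W` of `x₀` of the graph of a smooth map `u` from an open subset of an `m`-plane `σ`
to its orthogonal complement, and the mean curvature of the graph vanishes. -/
def IsMinimalGraphNear (m : ℕ) {N : ℕ} (x₀ : EuclideanSpace ℝ (Fin N))
    (M : Set (EuclideanSpace ℝ (Fin N))) : Prop :=
  ∃ (σ : Submodule ℝ (EuclideanSpace ℝ (Fin N))) (W : Set (EuclideanSpace ℝ (Fin N)))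
    (Ω : Set σ) (u : σ → σᗮ),
    Module.finrank ℝ σ = m ∧ IsOpen W ∧ x₀ ∈ W ∧ IsOpen Ω ∧ ContDiffOn ℝ (⊤ : ℕ∞) u Ω ∧
    (∀ x ∈ Ω, ZeroMeanCurvAt m u x) ∧
    M = W ∩ (fun x : σ => (x : EuclideanSpace ℝ (Fin N)) + (u x : EuclideanSpace ℝ (Fin N))) '' Ω

end Pool.Agent.MP_f6c0e6_an
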